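import Pool.Agent.Helper96.OP.Z

/-!
# `Out(F_n)` is a pushout of finitely many of its finite subgroups, `n ≥ 3`

All definitions used in the statement are in `Pool/Agent/Helper96/OP/PushDefs.lean`.
-/

set_option autoImplicit false

namespace Pool.Agent.Results.MP_2214fc_al.OutPushout

open Pool.Agent.Helper96.OutPush

/-- **Main theorem.** For every `n ≥ 3` the group `Out(F_n)` is a pushout of finitely many of its
finite subgroups: it is the colimit of a developable simple complex of finite groups over a
finite poset whose realisation is simply connected. -/
theorem result (n : ℕ) (hn : 3 ≤ n) : IsFinitePushout (OutF n) :=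
  outF_isFinitePushout n hn

end Pool.Agent.Results.MP_2214fc_al.OutPushout
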